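import Pool.Agent.N745.NT.Int

/-!
# Few tuples with very large members: `(1 - 1 / (n - 2)) / M` and `(1 - 2 / n) / M`

Let `x = (x_1, …, x_n)` run over the `n`-tuples of non-zero pairwise coprime integers with sum `N`
and `|x_j| ≤ X`, and let `R = rad (x_1 ⋯ x_n)`. The members different from the one with the largest
radical determine the tuple, so there are at most `X ^ ((1 - 1 / n) / M + o(1))` tuples with
`R ^ M < max |x_j|`. The strong `n`-conjecture says that for a suitable `M` there are none if `N = 0`.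

We prove that for all `M ≥ M₀(n, ε)` the number of the tuples for which at least `h` of the members
exceed `R ^ M` in absolute value is `O (X ^ ((θ + ε) / M))`, uniformly in `N`, where
`θ = 1 - 1 / (n - h)` if `2 h < n` and `θ = 1 - 2 / n` if `2 h ≥ n`; and for `N = 0` one may replace
`h = 1` by `h = 2`: the number of the tuples with `R ^ M < max |x_j|` is
`O (X ^ ((1 - 1 / (n - 2) + ε) / M))` for `n ≥ 4`. No condition is imposed on the sub-sums.
-/

set_option autoImplicit false

namespace Pool.Agent.Results.MP_7ecdd4_nt.FewLargeExponent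

open Finset

/-- `x` is a tuple of non-zero pairwise coprime integers with sum `N`. -/
def Tuple {n : ℕ} (N : ℤ) (x : Fin n → ℤ) : Prop :=
  (∀ i, x i ≠ 0) ∧ (∀ i j, i ≠ j → Int.gcd (x i) (x j) = 1) ∧ ∑ i, x i = N

/-- The radical of `x_1 ⋯ x_n`. -/
def radical {n : ℕ} (x : Fin n → ℤ) : ℕ := ∏ p ∈ (∏ i, x i).natAbs.primeFactors, p

/-- The indices `j` with `|x_j| > rad (x_1 ⋯ x_n) ^ M`. -/
noncomputable def violations {n : ℕ} (M : ℝ) (x : Fin n → ℤ) : Finset (Fin n) :=
  univ.filter fun i => (radical x : ℝ) ^ M < ((|x i| : ℤ) : ℝ)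

/-- The number of the tuples with sum `N` and all members at most `X` in absolute value, at least
`h` of which exceed `rad (x_1 ⋯ x_n) ^ M` in absolute value. -/
noncomputable def count (n : ℕ) (N : ℤ) (h : ℕ) (M : ℝ) (X : ℕ) : ℕ :=
  {x : Fin n → ℤ | Tuple N x ∧ (∀ i, |x i| ≤ (X : ℤ)) ∧ h ≤ (violations M x).card}.ncard

/-- The exponent: `1 - 2 / n` if `n ≤ 2 h`, and `1 - 1 / (n - h)` if `n > 2 h`. -/
noncomputable def theta (n h : ℕ) : ℝ :=
  if n ≤ 2 * h then 1 - 2 / (n : ℝ) else 1 - 1 / ((n : ℝ) - h)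

theorem theta_spec (n h : ℕ) (hn : 3 ≤ n) : 0 ≤ 1 - theta n h ∧ 1 - theta n h ≤ 3 / 4 ∧
    (1 - theta n h) * n ≤ 2 ∧ (1 - theta n h) * ((n : ℝ) - h) ≤ 1 := by
  have hnR : (3 : ℝ) ≤ n := by exact_mod_cast hn
  have hn0 : (0 : ℝ) < n := by linarith
  unfold theta
  split_ifs with h1
  · have h1R : (n : ℝ) ≤ 2 * h := by exact_mod_cast h1
    have e : 1 - (1 - 2 / (n : ℝ)) = 2 / n := by ring
    rw [e]
    refine ⟨by positivity, ?_, ?_, ?_⟩
    · rw [div_le_div_iff₀ hn0 (by norm_num)]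
      linarith
    · rw [div_mul_cancel₀ _ hn0.ne']
    · rw [div_mul_eq_mul_div, div_le_one hn0]
      linarith
  · have h1R : 2 * (h : ℝ) < n := by exact_mod_cast not_le.1 h1
    have hh0 : (0 : ℝ) ≤ h := Nat.cast_nonneg _
    have hpos : (0 : ℝ) < n - h := by linarith
    have e : 1 - (1 - 1 / ((n : ℝ) - h)) = 1 / (n - h) := by ring
    rw [e]
    refine ⟨by positivity, ?_, ?_, ?_⟩
    · rw [div_le_div_iff₀ hpos (by norm_num)]
      linarith
    · rw [div_mul_eq_mul_div, div_le_iff₀ hpos]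
      linarith
    · rw [div_mul_cancel₀ _ hpos.ne']

theorem radical_eq {n : ℕ} (x : Fin n → ℤ) : radical x = Pool.Agent.N745.NT.radi x := rfl

/-- a bound for all finite sets of tuples gives a bound for the number of tuples -/
theorem ncard_le {n : ℕ} {N : ℤ} {h : ℕ} {M : ℝ} {X : ℕ} {Bd : ℝ} 
    (hb : ∀ T : Finset (Fin n → ℤ), (∀ x ∈ T, Tuple N x ∧ (∀ i, |x i| ≤ (X : ℤ)) ∧
      h ≤ (violations M x).card) → (T.card : ℝ) ≤ Bd) : (count n N h M X : ℝ) ≤ Bd := by
  classical
  unfold count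
  have hfin : {x : Fin n → ℤ | Tuple N x ∧ (∀ i, |x i| ≤ (X : ℤ)) ∧
      h ≤ (violations M x).card}.Finite := by
    apply Set.Finite.subset (Finset.finite_toSet
      (Fintype.piFinset fun _ : Fin n => Icc (-(X : ℤ)) X))
    intro x hx
    rw [mem_coe, Fintype.mem_piFinset]
    intro i
    rw [mem_Icc]
    exact abs_le.1 (hx.2.1 i)
  rw [Set.ncard_eq_toFinset_card _ hfin]
  apply hb
  intro x hx
  rw [Set.Finite.mem_toFinset] at hx
  exact hx

theorem result : ∀ n h : ℕ, 3 ≤ n → 1 ≤ h → ∀ ε : ℝ, 0 < ε →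
    ∃ M₀ : ℝ, ∀ M : ℝ, M₀ ≤ M → ∃ C : ℝ, ∀ X : ℕ, 1 ≤ X →
      (∀ N : ℤ, (count n N h M X : ℝ) ≤ C * (X : ℝ) ^ ((theta n h + ε) / M)) ∧
      (count n 0 1 M X : ℝ) ≤ C * (X : ℝ) ^ ((theta n 2 + ε) / M) := by
  intro n h hn hh ε hε
  classical
  obtain ⟨t1, t2, t3, t4⟩ := theta_spec n h hn
  obtain ⟨s1, s2, s3, s4⟩ := theta_spec n 2 hn
  obtain ⟨Ma, -, hMa⟩ := Pool.Agent.N745.NT.int_count n (by omega) 1 h le_rfl hh _ t1 t2 t3 t4 ε hε
  obtain ⟨Mb, hMb0, hMb⟩ := Pool.Agent.N745.NT.int_count n (by omega) n 2 (by omega) (by norm_num)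
    _ s1 s2 s3 (by exact_mod_cast s4) ε hε
  refine ⟨max Ma Mb, fun M hM => ?_⟩
  obtain ⟨Ca, hCa, ha⟩ := hMa M ((le_max_left _ _).trans hM)
  obtain ⟨Cb, hCb, hb⟩ := hMb M ((le_max_right _ _).trans hM)
  have e1 : ∀ k : ℕ, 1 - (1 - theta n k) + ε = theta n k + ε := fun k => by ring
  simp only [e1] at ha hb
  refine ⟨Ca + Cb, fun X hX => ⟨fun N => ?_, ?_⟩⟩
  · apply ncard_le
    intro T hT
    refine (ha X N T hX ?_).trans ?_
    · intro x hx
      obtain ⟨⟨g1, g2, g3⟩, g4, g5⟩ := hT x hx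
      refine ⟨fun i => ⟨g1 i, g4 i⟩, g2, g3, g5.trans (le_of_eq ?_)⟩
      unfold violations
      simp only [radical_eq, Nat.cast_one, one_mul]
    · apply mul_le_mul_of_nonneg_right _ (by positivity)
      linarith
  · apply ncard_le
    intro T hT
    refine (hb X 0 T hX ?_).trans ?_
    · intro x hx
      obtain ⟨⟨g1, g2, g3⟩, g4, g5⟩ := hT x hx
      refine ⟨fun i => ⟨g1 i, g4 i⟩, g2, g3, ?_⟩
      obtain ⟨j, hj⟩ : (violations M x).Nonempty := by
        rw [← card_pos]; omega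
      have hj' : (radical x : ℝ) ^ M < ((|x j| : ℤ) : ℝ) := (mem_filter.1 hj).2
      rw [radical_eq] at hj'
      have hr0 : (0 : ℝ) ≤ (Pool.Agent.N745.NT.radi x : ℝ) ^ M := by positivity
      have hn1 : (1 : ℝ) ≤ n := by exact_mod_cast (by omega : 1 ≤ n)
      -- another large member
      have hex : ∃ i, i ≠ j ∧ |x j| ≤ (n : ℤ) * |x i| := by
        by_contra hcon
        push Not at hcon
        have e2 : x j = - ∑ i ∈ univ.erase j, x i := by
          have := add_sum_erase univ x (mem_univ j)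
          rw [g3] at this
          linarith
        have e3 : |x j| ≤ ∑ i ∈ univ.erase j, |x i| := by
          conv_lhs => rw [e2, abs_neg]
          exact abs_sum_le_sum_abs _ _
        have e4 : (n : ℤ) * ∑ i ∈ univ.erase j, |x i| ≤ (n - 1) * |x j| := by
          rw [mul_sum]
          calc ∑ i ∈ univ.erase j, (n : ℤ) * |x i| ≤ ∑ _i ∈ univ.erase j, |x j| := by
                apply sum_le_sum
                intro i hi
                exact (hcon i (mem_erase.1 hi).1).le
            _ = (n - 1) * |x j| := by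
                rw [sum_const, card_erase_of_mem (mem_univ _), card_univ, Fintype.card_fin,
                  nsmul_eq_mul, Nat.cast_sub (by omega)]
                push_cast
                ring
        have e5 : 0 < |x j| := abs_pos.2 (g1 j)
        have e6 : (n : ℤ) * |x j| ≤ n * ∑ i ∈ univ.erase j, |x i| :=
          mul_le_mul_of_nonneg_left e3 (by positivity)
        nlinarith
      obtain ⟨i, hij, hi⟩ := hex
      have hiR : ((|x j| : ℤ) : ℝ) ≤ (n : ℝ) * ((|x i| : ℤ) : ℝ) := by exact_mod_cast hi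
      have hjR : (0 : ℝ) ≤ ((|x j| : ℤ) : ℝ) := by exact_mod_cast abs_nonneg (x j)
      rw [show (2 : ℕ) = ({i, j} : Finset (Fin n)).card from (card_pair hij).symm]
      apply card_le_card
      intro a ha
      rw [mem_insert, mem_singleton] at ha
      rw [mem_filter]
      refine ⟨mem_univ _, ?_⟩
      rcases ha with rfl | rfl
      · linarith
      · nlinarith
    · apply mul_le_mul_of_nonneg_right _ (by positivity)
      linarith

end Pool.Agent.Results.MP_7ecdd4_nt.FewLargeExponent
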