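import Mathlib
import Pool.Agent.N906.RN.All
import Pool.Agent.N82.RN_FINRC

/-!
# The strong `n`-conjecture: the exceptions ordered by their radical, up to the second order term

Let `n ≥ 3` and `1/n < M < M' < 3/(3n-1)`. The number of the `n`-tuples of pairwise coprime nonzero integers with sum
zero, `R = rad(x_1 ⋯ x_n) ≤ X` and `R ^ M < max |x_i| ≤ R ^ M'` is

  `X ^ (1 - M) * exp ((√(8 n (n M - 1)) + o(1)) √(log X / log log X))`.

For `M` close to `1/n` the same holds with the condition `max |x_i| ≤ X ^ A` (any given `A ≥ 1`) instead of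
`max |x_i| ≤ R ^ M'`.
-/

set_option autoImplicit false

namespace Pool.Agent.Results.MP_7ecdd4_nt.RadicalOrder

open Finset Filter Topology

/-- the tuples of the problem: pairwise coprime nonzero integers with sum zero -/
def Admissible {n : ℕ} (x : Fin n → ℤ) : Prop :=
  (∀ i, x i ≠ 0) ∧ (∀ i j, i ≠ j → Int.gcd (x i) (x j) = 1) ∧ ∑ i, x i = 0

/-- the product of the primes that divide `a` -/
def rad (a : ℤ) : ℕ := ∏ p ∈ a.natAbs.primeFactors, p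

/-- `max |x_i|` -/
def height {n : ℕ} (x : Fin n → ℤ) : ℕ := univ.sup fun i => (x i).natAbs

/-- the admissible tuples with `R = rad (x_1 ⋯ x_n) ≤ X` that violate `max |x_i| ≤ R ^ M` and satisfy
`max |x_i| ≤ R ^ M'` -/
def Exceptions (n : ℕ) (M M' X : ℝ) : Set (Fin n → ℤ) :=
  {x | Admissible x ∧ (rad (∏ i, x i) : ℝ) ≤ X ∧ (rad (∏ i, x i) : ℝ) ^ M < height x ∧
    (height x : ℝ) ≤ (rad (∏ i, x i) : ℝ) ^ M'}

/-- the admissible tuples with `R = rad (x_1 ⋯ x_n) ≤ X` and `R ^ M < max |x_i| ≤ X ^ A` -/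
def AllExceptions (n : ℕ) (M A X : ℝ) : Set (Fin n → ℤ) :=
  {x | Admissible x ∧ (rad (∏ i, x i) : ℝ) ≤ X ∧ (rad (∏ i, x i) : ℝ) ^ M < height x ∧
    (height x : ℝ) ≤ X ^ A}

theorem rad_eq {n : ℕ} (x : Fin n → ℤ) :
    rad (∏ i, x i) = Pool.Agent.N906.NT.rr (Pool.Agent.N906.NT.ab x) := by
  unfold rad Pool.Agent.N906.NT.rr Pool.Agent.N906.NT.pr Pool.Agent.N906.NT.ab
  rw [← Int.natAbsHom_apply, map_prod]
  rfl

theorem adm1 {n : ℕ} (x : Fin n → ℤ) (hx : Admissible x) :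
    ∑ i, x i = 0 ∧ (∀ i, x i ≠ 0) ∧
      Pool.Agent.N906.NT.Tp (Pool.Agent.N906.NT.Dl n 1) (Pool.Agent.N906.NT.ab x) := by
  refine ⟨hx.2.2, hx.1, fun i => Nat.one_le_iff_ne_zero.2
    (Int.natAbs_ne_zero.2 (hx.1 i)), fun p hp => ?_⟩
  unfold Pool.Agent.N906.NT.Dl
  rw [mem_filter]
  refine ⟨mem_univ _, ?_⟩
  rw [card_le_one]
  intro i hi j hj
  rw [mem_filter] at hi hj
  by_contra hij
  have h1 := Nat.dvd_gcd hi.2 hj.2
  have h2 : Nat.gcd (x i).natAbs (x j).natAbs = 1 := hx.2.1 i j hij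
  unfold Pool.Agent.N906.NT.ab at h1
  rw [h2] at h1
  exact hp.one_lt.ne' (Nat.dvd_one.1 h1)

theorem adm2 {n : ℕ} (x : Fin n → ℤ) (h1 : ∑ i, x i = 0) (h2 : ∀ i, x i ≠ 0)
    (h4 : Pool.Agent.N906.NT.Tp (Pool.Agent.N906.NT.Dl n 1) (Pool.Agent.N906.NT.ab x)) :
    Admissible x := by
  refine ⟨h2, fun i j hij => ?_, h1⟩
  by_contra hg
  obtain ⟨p, hp, hpd⟩ := Nat.exists_prime_and_dvd hg
  have h5 := h4.2 p hp
  unfold Pool.Agent.N906.NT.Dl at h5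
  rw [mem_filter, card_le_one] at h5
  have hpi : p ∣ (x i).natAbs := hpd.trans (Nat.gcd_dvd_left _ _)
  have hpj : p ∣ (x j).natAbs := hpd.trans (Nat.gcd_dvd_right _ _)
  exact hij (h5.2 i (by rw [mem_filter]; exact ⟨mem_univ _, hpi⟩) j
    (by rw [mem_filter]; exact ⟨mem_univ _, hpj⟩))

theorem lt_height {n : ℕ} (hn : 0 < n) (x : Fin n → ℤ) (a : ℝ) :
    a < (height x : ℝ) ↔ ∃ i, a < |(x i : ℝ)| := by
  have : Nonempty (Fin n) := ⟨⟨0, hn⟩⟩
  constructor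
  · intro h
    obtain ⟨i, -, hi⟩ := exists_mem_eq_sup univ (univ_nonempty (α := Fin n)) (fun i => (x i).natAbs)
    refine ⟨i, ?_⟩
    have h4 : height x = (x i).natAbs := hi
    rwa [h4, Nat.cast_natAbs, Int.cast_abs] at h
  · rintro ⟨i, hi⟩
    have h1 : (x i).natAbs ≤ height x := le_sup (f := fun i => (x i).natAbs) (mem_univ i)
    have h2 : ((x i).natAbs : ℝ) ≤ (height x : ℝ) := by exact_mod_cast h1
    rw [Nat.cast_natAbs, Int.cast_abs] at h2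
    exact hi.trans_le h2

theorem height_le {n : ℕ} (hn : 0 < n) (x : Fin n → ℤ) (a : ℝ) :
    (height x : ℝ) ≤ a ↔ ∀ i, |(x i : ℝ)| ≤ a := by
  rw [← not_lt, lt_height hn]
  push Not
  rfl

theorem exc_eq {n : ℕ} (hn : 3 ≤ n) (M M' X : ℝ) : Exceptions n M M' X =
    Pool.Agent.N906.RN.Ra n 1 M M' X := by
  unfold Exceptions Pool.Agent.N906.RN.Ra
  ext x
  rw [Set.mem_ofPred_eq, Set.mem_ofPred_eq, rad_eq, lt_height (by omega), height_le (by omega)]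
  constructor
  · rintro ⟨h1, h2, h3, h4⟩
    obtain ⟨g1, g2, g3⟩ := adm1 x h1
    exact ⟨g1, g2, g3, h2, h3, h4⟩
  · rintro ⟨g1, g2, g3, h2, h3, h4⟩
    exact ⟨adm2 x g1 g2 g3, h2, h3, h4⟩

theorem all_eq {n : ℕ} (hn : 3 ≤ n) (M A X : ℝ) : AllExceptions n M A X =
    Pool.Agent.N906.RN.Rc n M A X := by
  unfold AllExceptions Pool.Agent.N906.RN.Rc
  ext x
  rw [Set.mem_ofPred_eq, Set.mem_ofPred_eq, rad_eq, lt_height (by omega), height_le (by omega)]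
  constructor
  · rintro ⟨⟨g1, g2, g3⟩, h2, h3, h4⟩
    exact ⟨g3, g1, fun i j hij => Int.isCoprime_iff_gcd_eq_one.2 (g2 i j hij), h2, h3, h4⟩
  · rintro ⟨g1, g2, g3, h2, h3, h4⟩
    exact ⟨⟨g2, fun i j hij => Int.isCoprime_iff_gcd_eq_one.1 (g3 i j hij), g1⟩, h2, h3, h4⟩

/-- **Theorem.** Let `n ≥ 3`. (1) Let `1/n < M < M' < 3/(3n-1)`. The number `N(X)` of the `n`-tuples of pairwise coprime
nonzero integers with sum zero, `R = rad (x_1 ⋯ x_n) ≤ X` and `R ^ M < max |x_i| ≤ R ^ M'` is finite, and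
`(log N(X) - (1 - M) log X) / √(log X / log log X)` tends to `√(8 n (n M - 1))`. (2) For every `A ≥ 1` there is `M₀ > 1/n`
such that for `1/n < M < M₀` the same holds with `max |x_i| ≤ X ^ A` instead of `max |x_i| ≤ R ^ M'`. -/
theorem result : ∀ n : ℕ, 3 ≤ n →
    (∀ M M' : ℝ, 1 / (n : ℝ) < M → M < M' → M' < 3 / (3 * n - 1) →
      (∀ X : ℝ, (Exceptions n M M' X).Finite) ∧
      Tendsto (fun X : ℝ => (Real.log ((Exceptions n M M' X).ncard : ℝ) - (1 - M) * Real.log X) /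
        √(Real.log X / Real.log (Real.log X))) atTop (𝓝 √(8 * n * ((n : ℝ) * M - 1)))) ∧
    ∀ A : ℝ, 1 ≤ A → ∃ M₀ : ℝ, 1 / (n : ℝ) < M₀ ∧ ∀ M : ℝ, 1 / (n : ℝ) < M → M < M₀ →
      (∀ X : ℝ, (AllExceptions n M A X).Finite) ∧
      Tendsto (fun X : ℝ => (Real.log ((AllExceptions n M A X).ncard : ℝ) - (1 - M) * Real.log X) /
        √(Real.log X / Real.log (Real.log X))) atTop (𝓝 √(8 * n * ((n : ℝ) * M - 1))) := by
  intro n hn
  refine ⟨fun M M' h1 h2 h3 => ?_, fun A hA => ?_⟩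
  · simp only [exc_eq hn]
    obtain ⟨g1, h, -⟩ := Pool.Agent.N906.RN.finrn_all n 1 M M' (by omega) (by omega) h1 h2 h3
    refine ⟨g1, ?_⟩
    have e1 : ((1 : ℕ) : ℝ) / (((1 : ℕ) : ℝ) + 1) = 1 / 2 := by norm_num
    have e3 : Pool.Agent.N906.NT.cst 1 (n.choose 1) * ((n : ℝ) * M - 1) ^ ((1 : ℝ) / 2) =
        √(8 * n * ((n : ℝ) * M - 1)) := by
      unfold Pool.Agent.N906.NT.cst
      rw [Nat.choose_one_right]
      have e4 : (((1 : ℕ) : ℝ) + 1) / ((1 : ℕ) : ℝ) = 2 := by norm_num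
      have e5 : (2 * ((1 : ℕ) : ℝ) + 1) / (((1 : ℕ) : ℝ) + 1) = 3 * (1 / 2) := by norm_num
      have e6 : 1 / (((1 : ℕ) : ℝ) + 1) = 1 / 2 := by norm_num
      rw [e4, e5, e6, Real.rpow_mul (by norm_num), ← Real.sqrt_eq_rpow, ← Real.sqrt_eq_rpow,
        ← Real.sqrt_eq_rpow, ← Real.sqrt_mul (by positivity), ← Real.sqrt_mul (by positivity)]
      norm_num
    rw [e1, e3] at h
    refine h.congr fun X => ?_
    rw [Real.sqrt_eq_rpow]
  · obtain ⟨M₀, h1, h2⟩ := Pool.Agent.N82.RN.finrc Pool.Agent.N906.RN.finrn_all n A hn hA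
    simp only [all_eq hn]
    exact ⟨M₀, h1, h2⟩

end Pool.Agent.Results.MP_7ecdd4_nt.RadicalOrder
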