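import Mathlib
import Pool.Agent.N906.NT.Lim
import Pool.Agent.N906.NT.All

/-!
# The strong `n`-conjecture: the exact number of the exceptions up to the second order term

Let `n ≥ 3` and `1/n < M < 3/(3n-1)`. The number of the `n`-tuples of pairwise coprime nonzero integers with
sum zero, height `H = max |x_i| ≤ X`, and `H > rad(x_1 ⋯ x_n) ^ M` is

  `X ^ (1/M - 1) * exp ((√(8 n (n - 1/M)) + o(1)) √(log X / log log X))`.
-/

set_option autoImplicit false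

namespace Pool.Agent.Results.MP_7ecdd4_nt.SecondOrderTerm

open Finset Filter Topology

/-- the tuples of the problem: pairwise coprime nonzero integers with sum zero -/
def Admissible {n : ℕ} (x : Fin n → ℤ) : Prop :=
  (∀ i, x i ≠ 0) ∧ (∀ i j, i ≠ j → Int.gcd (x i) (x j) = 1) ∧ ∑ i, x i = 0

/-- the product of the primes that divide `a` -/
def rad (a : ℤ) : ℕ := ∏ p ∈ a.natAbs.primeFactors, p

/-- `max |x_i|` -/
def height {n : ℕ} (x : Fin n → ℤ) : ℕ := univ.sup fun i => (x i).natAbs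

/-- the admissible tuples with `max |x_i| ≤ X` that violate `max |x_i| ≤ rad (x_1 ⋯ x_n) ^ M` -/
def Exceptions (n : ℕ) (M X : ℝ) : Set (Fin n → ℤ) :=
  {x | Admissible x ∧ (height x : ℝ) ≤ X ∧ (rad (∏ i, x i) : ℝ) ^ M < height x}

theorem rad_eq {n : ℕ} (x : Fin n → ℤ) :
    rad (∏ i, x i) = Pool.Agent.N906.NT.rr (Pool.Agent.N906.NT.ab x) := by
  unfold rad Pool.Agent.N906.NT.rr Pool.Agent.N906.NT.pr Pool.Agent.N906.NT.ab
  rw [← Int.natAbsHom_apply, map_prod]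
  rfl

theorem adm1 {n : ℕ} (x : Fin n → ℤ) (hx : Admissible x) :
    ∑ i, x i = 0 ∧ (∀ i, x i ≠ 0) ∧
      Pool.Agent.N906.NT.Tp (Pool.Agent.N906.NT.Dl n 1) (Pool.Agent.N906.NT.ab x) := by
  refine ⟨hx.2.2, hx.1, fun i => Nat.one_le_iff_ne_zero.2
    (Int.natAbs_ne_zero.2 (hx.1 i)), fun p hp => ?_⟩
  unfold Pool.Agent.N906.NT.Dl
  rw [mem_filter]
  refine ⟨mem_univ _, ?_⟩
  rw [card_le_one]
  intro i hi j hj
  rw [mem_filter] at hi hj
  by_contra hij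
  have h1 := Nat.dvd_gcd hi.2 hj.2
  have h2 : Nat.gcd (x i).natAbs (x j).natAbs = 1 := hx.2.1 i j hij
  unfold Pool.Agent.N906.NT.ab at h1
  rw [h2] at h1
  exact hp.one_lt.ne' (Nat.dvd_one.1 h1)

theorem adm2 {n : ℕ} (x : Fin n → ℤ) (h1 : ∑ i, x i = 0) (h2 : ∀ i, x i ≠ 0)
    (_h3 : Pool.Agent.N906.NT.NV x)
    (h4 : Pool.Agent.N906.NT.Tp (Pool.Agent.N906.NT.Dl n 1) (Pool.Agent.N906.NT.ab x)) :
    Admissible x := by
  refine ⟨h2, fun i j hij => ?_, h1⟩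
  by_contra hg
  obtain ⟨p, hp, hpd⟩ := Nat.exists_prime_and_dvd hg
  have h5 := h4.2 p hp
  unfold Pool.Agent.N906.NT.Dl at h5
  rw [mem_filter, card_le_one] at h5
  have hpi : p ∣ (x i).natAbs := hpd.trans (Nat.gcd_dvd_left _ _)
  have hpj : p ∣ (x j).natAbs := hpd.trans (Nat.gcd_dvd_right _ _)
  exact hij (h5.2 i (by rw [mem_filter]; exact ⟨mem_univ _, hpi⟩) j
    (by rw [mem_filter]; exact ⟨mem_univ _, hpj⟩))

theorem exc_eq {n : ℕ} (M X : ℝ) : Exceptions n M X =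
    Pool.Agent.N906.NT.VV (Admissible (n := n)) M X := by
  unfold Exceptions Pool.Agent.N906.NT.VV
  ext x
  rw [Set.mem_ofPred_eq, Set.mem_ofPred_eq, rad_eq]
  rfl

/-- **Theorem.** Let `n ≥ 3` and `1/n < M < 3/(3n-1)`. The number `N(X)` of the `n`-tuples of pairwise coprime
nonzero integers with sum zero and `max |x_i| ≤ X` that violate `max |x_i| ≤ rad (x_1 ⋯ x_n) ^ M` is finite, and
`(log N(X) - (1/M - 1) log X) / √(log X / log log X)` tends to `√(8 n (n - 1/M))`. -/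
theorem result :
    ∀ n : ℕ, 3 ≤ n → ∀ M : ℝ, 1 / (n : ℝ) < M → M < 3 / (3 * n - 1) →
    (∀ X : ℝ, (Exceptions n M X).Finite) ∧
    Tendsto (fun X : ℝ => (Real.log ((Exceptions n M X).ncard : ℝ) - (1 / M - 1) * Real.log X) /
      √(Real.log X / Real.log (Real.log X))) atTop (𝓝 √(8 * n * (n - 1 / M))) := by
  intro n hn M h1 h2
  simp only [exc_eq]
  refine ⟨fun X => Pool.Agent.N906.NT.VV_fin _ M X, ?_⟩
  have h := Pool.Agent.N906.NT.limit Pool.Agent.N906.NT.up_all Pool.Agent.N906.NT.lo_all (n := n) (r := 1) le_rfl (by omega) h1 h2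
    Admissible adm1 adm2
  have e1 : ((1 : ℕ) : ℝ) / (((1 : ℕ) : ℝ) + 1) = 1 / 2 := by norm_num
  have e3 : Pool.Agent.N906.NT.cst 1 (n.choose 1) * ((n : ℝ) - 1 / M) ^ ((1 : ℝ) / 2) =
      √(8 * n * (n - 1 / M)) := by
    unfold Pool.Agent.N906.NT.cst
    rw [Nat.choose_one_right]
    have e4 : (((1 : ℕ) : ℝ) + 1) / ((1 : ℕ) : ℝ) = 2 := by norm_num
    have e5 : (2 * ((1 : ℕ) : ℝ) + 1) / (((1 : ℕ) : ℝ) + 1) = 3 * (1 / 2) := by norm_num
    have e6 : 1 / (((1 : ℕ) : ℝ) + 1) = 1 / 2 := by norm_num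
    rw [e4, e5, e6, Real.rpow_mul (by norm_num), ← Real.sqrt_eq_rpow, ← Real.sqrt_eq_rpow,
      ← Real.sqrt_eq_rpow, ← Real.sqrt_mul (by positivity), ← Real.sqrt_mul (by positivity)]
    norm_num
  rw [e1, e3] at h
  refine h.congr fun X => ?_
  rw [Real.sqrt_eq_rpow]

end Pool.Agent.Results.MP_7ecdd4_nt.SecondOrderTerm
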