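import Pool.Agent.N671.DA.Win
import Pool.Agent.Results.MP_7ecdd4_nt.DivisorsInWindows

/-!
# The strong `n`-conjecture near functions of the denominators of good approximations

Let `α_1, …, α_m` be real numbers. We consider the natural numbers `q` with `‖q α_j - β_j‖ ≤ c q^(-τ)` for all `j`, `‖x‖` the
distance to the nearest integer; for `β = 0`, `c = 1`, `τ = 1 / m` these include the denominators of all best simultaneous
approximations (the denominators of the convergents for `m = 1`). They form a very sparse sequence, with gaps growing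
exponentially for almost all `α` if `τ = 1 / m`. Let `G` be a function with steps bounded below by a positive constant and
growth at most `v^d`, for example `a v^d`, and `0 ≤ κ ≤ 1`. We show: for all `α` in `ℝ^m` outside a set of Hausdorff dimension
at most `(m + κ) / (1 + τ)`, which is less than `m` if `κ < 1`, `τ = 1 / m`, there is for all `c`, `n ≥ 4` and `A` an `M` such
that for ALL such `q ≥ 1` EVERY tuple `x` of nonzero pairwise coprime integers with sum zero, for which `x_1 ⋯ x_n` has a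
divisor `r` with `|r - G q| ≤ q^κ` and `max |x_j| ≤ r ^ A`, satisfies `max |x_j| ≤ rad (x_1 ⋯ x_n) ^ M`. In particular this
holds for all the tuples of a height within `q^κ` of `G q`. For a given `M` it holds for all but finitely many `q` if `α` is
outside a set of dimension at most `(m + d A s + κ) / (1 + τ)`, `s = (3 n - 5) / ((3 n - 2) M)`.

Proof. The `q` such that the height of an exceptional tuple, or a divisor of the product, is near `G q` form a set with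
`O(X^(d A s + κ + ε))` elements up to `X`, by the starting theorem `FewExceptions` of this problem; and the `α` with
`‖q α_j - β_j‖ ≤ c q^(-τ)` for all `j` and infinitely many `q` of such a set are covered by few small cubes.
-/

set_option autoImplicit false

namespace Pool.Agent.Results.MP_7ecdd4_nt.SimultaneousApproximations

open Finset
open Pool.Agent.N671.DA (Solves Expanding expanding_pow approx_win_nat)
open Pool.Agent.Results.MP_7ecdd4_nt.DivisorsInWindows (Admissible rad height Good hcount κ_nonneg)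

/-- one exponent `M` -/
theorem fixed {n : ℕ} (hn : 4 ≤ n) {G : ℕ → ℝ} {d : ℝ} (hG : Expanding G d) {A M κ : ℝ} (hA : 0 < A)
    (hM : 10 / (3 * (n : ℝ) - 2) ≤ M) (hκ : 0 ≤ κ) (hκ1 : κ ≤ 1) {m : ℕ} (β : Fin m → ℝ) {τ : ℝ} (hτ : 0 < τ) :
    ∃ E : Set (Fin m → ℝ),
      dimH E ≤ ENNReal.ofReal ((m + (d * (A * ((3 * (n : ℝ) - 5) / (3 * (n : ℝ) - 2) / M)) + κ)) / (1 + τ)) ∧
      ∀ α, α ∉ E → ∀ c : ℝ, ∃ Q : ℕ, ∀ q : ℕ, Q ≤ q → Solves α β q (c * (q : ℝ) ^ (-τ)) →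
        ∀ r : ℕ, |(r : ℝ) - G q| ≤ (q : ℝ) ^ κ → Good n A M r := by
  have h4 : (4 : ℝ) ≤ n := by exact_mod_cast hn
  have hs0 : 0 ≤ (3 * (n : ℝ) - 5) / (3 * (n : ℝ) - 2) / M :=
    div_nonneg (κ_nonneg hn) (le_trans (div_nonneg (by norm_num) (by linarith)) hM)
  have hcd := Pool.Agent.R559.NP.count_div (n := n)
    (Bad := fun x : Fin n → ℤ => Admissible x ∧ ¬ height x ≤ (rad x : ℝ) ^ M)
    (fun x hx => hx.1.1) hA (fun δ hδ => hcount hn hM δ hδ)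
  obtain ⟨E, hE, hE2⟩ := approx_win_nat (Pool.Agent.R559.NP.DivBad
    (fun x : Fin n → ℤ => Admissible x ∧ ¬ height x ≤ (rad x : ℝ) ^ M) A) hG
    (mul_nonneg hA.le hs0) hκ hκ1 (fun ε hε => by
      obtain ⟨C, hC⟩ := hcd ε hε
      refine ⟨C, fun X hX => le_trans (le_of_eq ?_) (hC X hX)⟩
      congr!) β hτ
  refine ⟨E, hE, fun α hα c => ?_⟩
  obtain ⟨Q, hQ⟩ := hE2 α hα c
  refine ⟨Q, fun q hq h1 r hr x hx hd hh => ?_⟩
  by_contra hcon
  exact hQ q hq h1 r (Or.inr ⟨x, ⟨hx, hcon⟩, hh, hd⟩) hr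

/-- a tuple with a height near `y` has a divisor near `y` -/
theorem good_height {n : ℕ} (hn : 0 < n) {A M : ℝ} (hA : 1 ≤ A) {y w : ℝ}
    (h : ∀ r : ℕ, |(r : ℝ) - y| ≤ w → Good n A M r) (x : Fin n → ℤ) (hx : Admissible x)
    (hy : |height x - y| ≤ w) : height x ≤ (rad x : ℝ) ^ M := by
  have : Nonempty (Fin n) := ⟨⟨0, hn⟩⟩
  obtain ⟨i, hi⟩ := exists_eq_ciSup_of_finite (f := fun i : Fin n => ((|x i| : ℤ) : ℝ))
  have hi' : height x = (((x i).natAbs : ℕ) : ℝ) := by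
    rw [Nat.cast_natAbs]
    exact hi.symm
  have h1 : 1 ≤ (x i).natAbs := Int.natAbs_pos.2 (hx.1 i)
  have h1' : (1 : ℝ) ≤ (((x i).natAbs : ℕ) : ℝ) := by exact_mod_cast h1
  refine h (x i).natAbs (by rw [← hi']; exact hy) x hx ?_ ?_
  · exact (Int.natAbs_dvd.2 dvd_rfl).trans (Finset.dvd_prod_of_mem _ (Finset.mem_univ i))
  · rw [hi']
    calc (((x i).natAbs : ℕ) : ℝ) = (((x i).natAbs : ℕ) : ℝ) ^ (1 : ℝ) := (Real.rpow_one _).symm
      _ ≤ _ := Real.rpow_le_rpow_of_exponent_le h1' hA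

theorem good_anti {n : ℕ} {A A' M : ℝ} (hA : A ≤ A') {r : ℕ} (h : Good n A' M r) : Good n A M r := by
  intro x hx hd hh
  rcases Nat.eq_zero_or_pos r with h0 | h0
  · exfalso
    rw [h0] at hd
    have : ∏ i, x i = 0 := by simpa using hd
    exact (Finset.prod_ne_zero_iff.2 fun i _ => hx.1 i) this
  · exact h x hx hd (hh.trans (Real.rpow_le_rpow_of_exponent_le (by exact_mod_cast h0) hA))

theorem good_mono {n : ℕ} {A M M' : ℝ} (hM : M ≤ M') {r : ℕ} (h : Good n A M r) : Good n A M' r :=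
  fun x hx hd hh => Pool.Agent.R559.NP.good_mono (h x hx hd hh) hM

/-- some exponent `M`, for all `n` -/
theorem some_exponent {G : ℕ → ℝ} {d : ℝ} (hG : Expanding G d) {κ : ℝ} (hκ : 0 ≤ κ) (hκ1 : κ ≤ 1) {m : ℕ}
    (β : Fin m → ℝ) {τ : ℝ} (hτ : 0 < τ) :
    ∃ E : Set (Fin m → ℝ), dimH E ≤ ENNReal.ofReal ((m + κ) / (1 + τ)) ∧
      ∀ α, α ∉ E → ∀ (c : ℝ) (n : ℕ), 4 ≤ n → ∀ A : ℝ, ∃ M : ℝ, ∀ q : ℕ,
        Solves α β q (c * (q : ℝ) ^ (-τ)) → ∀ r : ℕ, |(r : ℝ) - G q| ≤ (q : ℝ) ^ κ → Good n A M r := by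
  have hd := hG.one_le
  have hfix : ∀ a : ℕ × ℕ × ℕ, ∃ E : Set (Fin m → ℝ),
      dimH E ≤ ENNReal.ofReal ((m + (d * (((a.2.1 + 1 : ℕ) : ℝ) * ((3 * ((a.1 + 4 : ℕ) : ℝ) - 5) /
        (3 * ((a.1 + 4 : ℕ) : ℝ) - 2) / ((a.2.2 + 1 : ℕ) : ℝ))) + κ)) / (1 + τ)) ∧
      ∀ α, α ∉ E → ∀ c : ℝ, ∃ Q : ℕ, ∀ q : ℕ, Q ≤ q → Solves α β q (c * (q : ℝ) ^ (-τ)) →
        ∀ r : ℕ, |(r : ℝ) - G q| ≤ (q : ℝ) ^ κ → Good (a.1 + 4) ((a.2.1 + 1 : ℕ) : ℝ) ((a.2.2 + 1 : ℕ) : ℝ) r := by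
    intro a
    refine fixed (by omega) hG (by positivity) ?_ hκ hκ1 β hτ
    have h1 : (1 : ℝ) ≤ ((a.2.2 + 1 : ℕ) : ℝ) := by
      push_cast
      have : (0 : ℝ) ≤ (a.2.2 : ℝ) := Nat.cast_nonneg _
      linarith
    refine le_trans ?_ h1
    have h2 : (0 : ℝ) ≤ (a.1 : ℝ) := Nat.cast_nonneg _
    rw [div_le_one (by push_cast; linarith)]
    push_cast
    linarith
  choose E hE hE2 using hfix
  refine ⟨⋃ a : ℕ × ℕ, ⋂ b : ℕ, E (a.1, a.2, b), ?_, ?_⟩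
  · rw [dimH_iUnion]
    refine iSup_le fun a => ?_
    have hle : ∀ b : ℕ, dimH (⋂ b : ℕ, E (a.1, a.2, b)) ≤ ENNReal.ofReal ((m + (d * (((a.2 + 1 : ℕ) : ℝ) *
        ((3 * ((a.1 + 4 : ℕ) : ℝ) - 5) / (3 * ((a.1 + 4 : ℕ) : ℝ) - 2) / ((b + 1 : ℕ) : ℝ))) + κ)) / (1 + τ)) :=
      fun b => (dimH_mono (Set.iInter_subset _ b)).trans (hE (a.1, a.2, b))
    have hlim : Filter.Tendsto (fun b : ℕ => ENNReal.ofReal ((m + (d * (((a.2 + 1 : ℕ) : ℝ) *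
        ((3 * ((a.1 + 4 : ℕ) : ℝ) - 5) / (3 * ((a.1 + 4 : ℕ) : ℝ) - 2) / ((b + 1 : ℕ) : ℝ))) + κ)) / (1 + τ)))
        Filter.atTop (nhds (ENNReal.ofReal ((m + (d * (((a.2 + 1 : ℕ) : ℝ) * 0) + κ)) / (1 + τ)))) := by
      refine ENNReal.tendsto_ofReal (Filter.Tendsto.div_const (Filter.Tendsto.const_add _
        (Filter.Tendsto.add_const _ (Filter.Tendsto.const_mul _ (Filter.Tendsto.const_mul _ ?_)))) _)
      exact (Filter.tendsto_add_atTop_iff_nat 1).2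
        (tendsto_const_div_atTop_nhds_zero_nat ((3 * ((a.1 + 4 : ℕ) : ℝ) - 5) / (3 * ((a.1 + 4 : ℕ) : ℝ) - 2)))
    have := ge_of_tendsto' hlim hle
    rwa [mul_zero, mul_zero, zero_add] at this
  · intro α hα c n hn A
    obtain ⟨n', rfl⟩ : ∃ n', n = n' + 4 := ⟨n - 4, by omega⟩
    obtain ⟨A', hA'⟩ : ∃ A' : ℕ, A ≤ ((A' + 1 : ℕ) : ℝ) := by
      obtain ⟨k, hk⟩ := exists_nat_ge A
      exact ⟨k, hk.trans (by push_cast; linarith)⟩
    rw [Set.mem_iUnion] at hα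
    push Not at hα
    have h1 := hα (n', A')
    rw [Set.mem_iInter] at h1
    push Not at h1
    obtain ⟨b, hb⟩ := h1
    obtain ⟨Q, hQ⟩ := hE2 (n', A', b) α hb c
    -- the small `q`
    obtain ⟨B, hB⟩ : ∃ B : ℕ, ∀ q : ℕ, q < Q → ∀ r : ℕ, |(r : ℝ) - G q| ≤ (q : ℝ) ^ κ → r ≤ B := by
      obtain ⟨B, hB⟩ : ∃ B : ℕ, ∀ q ∈ Finset.range Q, ⌈G q + (q : ℝ) ^ κ⌉₊ ≤ B :=
        ⟨(Finset.range Q).sup fun q => ⌈G q + (q : ℝ) ^ κ⌉₊, fun q hq =>
          Finset.le_sup (f := fun q : ℕ => ⌈G q + (q : ℝ) ^ κ⌉₊) hq⟩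
      refine ⟨B, fun q hq r hr => ?_⟩
      have h2 := (abs_le.1 hr).2
      have h3 : (r : ℝ) ≤ G q + (q : ℝ) ^ κ := by linarith
      have h4 : (r : ℝ) ≤ (⌈G q + (q : ℝ) ^ κ⌉₊ : ℝ) := h3.trans (Nat.le_ceil _)
      have h5 : r ≤ ⌈G q + (q : ℝ) ^ κ⌉₊ := by exact_mod_cast h4
      exact h5.trans (hB q (Finset.mem_range.2 hq))
    obtain ⟨M', hM'⟩ := Pool.Agent.R559.NP.good_small (n := n' + 4) (by omega) A B
    refine ⟨max M' ((b + 1 : ℕ) : ℝ), fun q hs r hr => ?_⟩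
    rcases lt_or_ge q Q with hq | hq
    · refine good_mono (le_max_left _ _) fun x hx hd hh => ?_
      exact hM' r (hB q hq r hr) x hx.1 hd hh
    · exact good_mono (le_max_right _ _) (good_anti hA' (hQ q hq hs r hr))

/-- **The strong `n`-conjecture near the denominators of good approximations.** Let `G` have steps `≥ a > 0` and growth at most
`v^d`, let `0 ≤ κ ≤ 1`, `β` in `ℝ^m` and `τ > 0`. (1) For all `α` in `ℝ^m` outside a set of Hausdorff dimension at most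
`(m + κ) / (1 + τ)`, all `c`, all `n ≥ 4` and all `A` there is `M` such that for ALL `q` with `‖q α_j - β_j‖ ≤ c q^(-τ)` for
all `j`, EVERY tuple `x` of `n` nonzero pairwise coprime integers with sum zero satisfies `max |x_j| ≤ rad (x_1 ⋯ x_n) ^ M` if
`x_1 ⋯ x_n` has a divisor `r` with `|r - G q| ≤ q^κ`, `max |x_j| ≤ r ^ A`, or if `|max |x_j| - G q| ≤ q^κ`. (2) For all
`n ≥ 4`, `A > 0`, `M ≥ 10 / (3 n - 2)`, for all `α` outside a set of dimension at most `(m + d A s + κ) / (1 + τ)`,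
`s = (3 n - 5) / ((3 n - 2) M)`, and all `c`, for all large such `q` EVERY such tuple satisfies
`max |x_j| ≤ rad (x_1 ⋯ x_n) ^ M` if `x_1 ⋯ x_n` has a divisor `r` with `|r - G q| ≤ q^κ`, `max |x_j| ≤ r ^ A`, or if `A ≥ 1`
and `|max |x_j| - G q| ≤ q^κ`. (3) The functions `a v^d` with `a > 0`, `d ≥ 1` are examples of `G`. -/
theorem result :
    (∀ (G : ℕ → ℝ) (d : ℝ), Expanding G d → ∀ κ : ℝ, 0 ≤ κ → κ ≤ 1 →
      ∀ (m : ℕ) (β : Fin m → ℝ) (τ : ℝ), 0 < τ →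
      ∃ E : Set (Fin m → ℝ), dimH E ≤ ENNReal.ofReal ((m + κ) / (1 + τ)) ∧
        ∀ α, α ∉ E → ∀ (c : ℝ) (n : ℕ), 4 ≤ n → ∀ A : ℝ, ∃ M : ℝ, ∀ q : ℕ, Solves α β q (c * (q : ℝ) ^ (-τ)) →
          (∀ r : ℕ, |(r : ℝ) - G q| ≤ (q : ℝ) ^ κ → Good n A M r) ∧
          ∀ x : Fin n → ℤ, Admissible x → |height x - G q| ≤ (q : ℝ) ^ κ → height x ≤ (rad x : ℝ) ^ M) ∧
    (∀ n : ℕ, 4 ≤ n → ∀ (G : ℕ → ℝ) (d : ℝ), Expanding G d → ∀ A M κ : ℝ, 0 < A → 10 / (3 * (n : ℝ) - 2) ≤ M →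
      0 ≤ κ → κ ≤ 1 → ∀ (m : ℕ) (β : Fin m → ℝ) (τ : ℝ), 0 < τ →
      ∃ E : Set (Fin m → ℝ),
        dimH E ≤ ENNReal.ofReal ((m + (d * (A * ((3 * (n : ℝ) - 5) / (3 * (n : ℝ) - 2) / M)) + κ)) / (1 + τ)) ∧
        ∀ α, α ∉ E → ∀ c : ℝ, ∃ Q : ℕ, ∀ q : ℕ, Q ≤ q → Solves α β q (c * (q : ℝ) ^ (-τ)) →
          (∀ r : ℕ, |(r : ℝ) - G q| ≤ (q : ℝ) ^ κ → Good n A M r) ∧
          (1 ≤ A → ∀ x : Fin n → ℤ, Admissible x → |height x - G q| ≤ (q : ℝ) ^ κ →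
            height x ≤ (rad x : ℝ) ^ M)) ∧
    ∀ a d : ℝ, 0 < a → 1 ≤ d → Expanding (fun v => a * (v : ℝ) ^ d) d := by
  refine ⟨fun G d hG κ hκ hκ1 m β τ hτ => ?_, fun n hn G d hG A M κ hA hM hκ hκ1 m β τ hτ => ?_,
    fun a d ha hd => expanding_pow ha hd⟩
  · obtain ⟨E, hE, hE2⟩ := some_exponent hG hκ hκ1 β hτ
    refine ⟨E, hE, fun α hα c n hn A => ?_⟩
    obtain ⟨M, hM⟩ := hE2 α hα c n hn (max A 1)
    exact ⟨M, fun q hq => ⟨fun r hr => good_anti (le_max_left _ _) (hM q hq r hr),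
      fun x hx hy => good_height (by omega) (le_max_right _ _) (hM q hq) x hx hy⟩⟩
  · obtain ⟨E, hE, hE2⟩ := fixed hn hG hA hM hκ hκ1 β hτ
    refine ⟨E, hE, fun α hα c => ?_⟩
    obtain ⟨Q, hQ⟩ := hE2 α hα c
    exact ⟨Q, fun q hq hs => ⟨hQ q hq hs, fun hA1 x hx hy => good_height (by omega) hA1 (hQ q hq hs) x hx hy⟩⟩

end Pool.Agent.Results.MP_7ecdd4_nt.SimultaneousApproximations
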